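import Pool.Agent.U797.LV.Rand

set_option autoImplicit false

/-!
# Colouring the vertices of one level
-/

namespace Pool.Agent.U797.LV

open Finset
open scoped Classical

variable {V : Type} [Fintype V]

/-- the vertices at distance one or two -/
noncomputable def ball (G : SimpleGraph V) (v : V) : Finset V := nb G v ∪ (nb G v).biUnion (nb G)

theorem mem_ball {G : SimpleGraph V} {v a : V} :
    a ∈ ball G v ↔ G.Adj v a ∨ ∃ y, G.Adj v y ∧ G.Adj y a := by
  unfold ball
  rw [mem_union, mem_nb, mem_biUnion]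
  constructor
  · rintro (h | ⟨y, h1, h2⟩)
    · exact Or.inl h
    · exact Or.inr ⟨y, mem_nb.1 h1, mem_nb.1 h2⟩
  · rintro (h | ⟨y, h1, h2⟩)
    · exact Or.inl h
    · exact Or.inr ⟨y, mem_nb.2 h1, mem_nb.2 h2⟩

theorem ball_symm {G : SimpleGraph V} {v a : V} (h : a ∈ ball G v) : v ∈ ball G a := by
  rw [mem_ball] at h ⊢
  rcases h with h | ⟨y, h1, h2⟩
  · exact Or.inl h.symm
  · exact Or.inr ⟨y, h2.symm, h1.symm⟩

theorem card_ball {G : SimpleGraph V} {D : ℕ} (hD : ∀ v, (nb G v).card ≤ D) (v : V) :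
    (ball G v).card ≤ D + D * D := by
  unfold ball
  refine (card_union_le _ _).trans (add_le_add (hD v) ?_)
  refine card_biUnion_le.trans ?_
  calc ∑ y ∈ nb G v, (nb G y).card ≤ ∑ y ∈ nb G v, D := sum_le_sum fun y _ => hD y
    _ = (nb G v).card * D := by rw [sum_const, smul_eq_mul]
    _ ≤ D * D := Nat.mul_le_mul_right _ (hD v)

theorem few_thick {G : SimpleGraph V} {ψ : V → V → ℕ} {Q κ D : ℕ} (hκ : 0 < κ)
    (hψ : ∀ a y, ψ a y < Q)
    (hD : ∀ v, (nb G v).card ≤ D) (v : V) :
    ((univ : Finset (V × Fin Q)).filter (fun q => κ ≤ (cls G ψ v q.1 q.2).card)).card ≤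
      D * D / κ := by
  rw [Nat.le_div_iff_mul_le hκ]
  have h1 : ∀ a, ∑ j : Fin Q, (cls G ψ v a j).card = (nb G v ∩ nb G a).card := by
    intro a
    rw [Fin.sum_univ_eq_sum_range (fun j => (cls G ψ v a j).card) Q]
    unfold cls
    exact (card_eq_sum_card_fiberwise (fun y _ => by
      rw [coe_range]
      exact hψ a y)).symm
  have h2 : ∑ a, (nb G v ∩ nb G a).card ≤ D * D := by
    have h3 := sum_inter_nb G (univ : Finset V) (nb G v)
    have h4 : ∑ w ∈ nb G v, (((univ : Finset V) ∩ nb G w).card : ℝ) ≤ D * D := by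
      calc ∑ w ∈ nb G v, (((univ : Finset V) ∩ nb G w).card : ℝ) ≤ ∑ w ∈ nb G v, (D : ℝ) := by
            refine sum_le_sum fun w _ => ?_
            rw [univ_inter]
            exact_mod_cast hD w
        _ = ((nb G v).card : ℝ) * D := by rw [sum_const, nsmul_eq_mul]
        _ ≤ D * D := by
          apply mul_le_mul_of_nonneg_right _ (Nat.cast_nonneg _)
          exact_mod_cast hD v
    rw [← h3] at h4
    exact_mod_cast h4
  calc _ = ∑ q ∈ (univ : Finset (V × Fin Q)).filter (fun q => κ ≤ (cls G ψ v q.1 q.2).card), κ := by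
        rw [sum_const, smul_eq_mul]
    _ ≤ ∑ q ∈ (univ : Finset (V × Fin Q)).filter (fun q => κ ≤ (cls G ψ v q.1 q.2).card),
        (cls G ψ v q.1 q.2).card := by
        refine sum_le_sum fun q hq => ?_
        rw [mem_filter] at hq
        exact hq.2
    _ ≤ ∑ q : V × Fin Q, (cls G ψ v q.1 q.2).card :=
        sum_le_sum_of_subset (filter_subset _ _)
    _ = ∑ a, ∑ j : Fin Q, (cls G ψ v a j).card := by rw [Fintype.sum_prod_type]
    _ = ∑ a, (nb G v ∩ nb G a).card := sum_congr rfl fun a _ => h1 a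
    _ ≤ D * D := h2

/-- the vertices of level `L` -/
noncomputable def XL (G : SimpleGraph V) (ψ : V → V → ℕ) (κ M s L : ℕ) : Finset V :=
  univ.filter (fun y => s ≤ ((nb G y).filter (fun a => Lev G ψ κ M L y a)).card ∧
    ((nb G y).filter (fun a => Lev G ψ κ M (L + 1) y a)).card < s)

theorem class_colour {G : SimpleGraph V} {ψ : V → V → ℕ} {Q κ M s D m K L : ℕ} (hκ : 0 < κ)
    (hs : 1 ≤ s) (hm : 1 ≤ m) (hD1 : 1 ≤ D)
    (hψ : ∀ a y, ψ a y < Q)
    (hprop : ∀ a y y', G.Adj a y → G.Adj a y' → G.Adj y y' → ψ a y ≠ ψ a y')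
    (hD : ∀ v, (nb G v).card ≤ D)
    (hr : 8 * (D * D / κ + (D + 1) * Q + D * M + s * s) ≤ m * s)
    (hK : 4 * ((D + D * D) * (D + D * D)) ≤ 2 ^ K) :
    ∃ f : V → ℕ, (∀ v ∈ XL G ψ κ M s L, f v < K * m) ∧
      ∀ v ∈ XL G ψ κ M s L, ∀ u ∈ XL G ψ κ M s L, G.Adj v u → f v ≠ f u := by
  obtain ⟨X, hX⟩ : ∃ X : Finset V, X = XL G ψ κ M s L := ⟨_, rfl⟩
  rw [← hX]
  have hXm : ∀ y, y ∈ X ↔ s ≤ ((nb G y).filter (fun a => Lev G ψ κ M L y a)).card ∧
    ((nb G y).filter (fun a => Lev G ψ κ M (L + 1) y a)).card < s := by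
    intro y
    rw [hX]
    unfold XL
    simp
  have hA : ∀ y, ∃ A : Finset V, y ∈ X → A ⊆ (nb G y).filter (fun a => Lev G ψ κ M L y a) ∧
      A.card = s := by
    intro y
    by_cases hy : y ∈ X
    · obtain ⟨A, h1, h2⟩ := exists_subset_card_eq ((hXm y).1 hy).1
      exact ⟨A, fun _ => ⟨h1, h2⟩⟩
    · exact ⟨∅, fun h => absurd h hy⟩
  choose A hA using hA
  have hA1 : ∀ y ∈ X, ∀ a ∈ A y, G.Adj y a ∧ Lev G ψ κ M L y a := by
    intro y hy a ha
    have := (hA y hy).1 ha
    rw [mem_filter, mem_nb] at this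
    exact this
  obtain ⟨c, hc⟩ : ∃ c : V → V → V × Fin Q, c = fun a y => (a, ⟨ψ a y, hψ a y⟩) := ⟨_, rfl⟩
  have hc1 : ∀ a y, (c a y).1 = a := by intro a y; rw [hc]
  have hc2 : ∀ a y, ((c a y).2 : ℕ) = ψ a y := by intro a y; rw [hc]
  obtain ⟨S, hS⟩ : ∃ S : V → Finset (V × Fin Q), S = fun y => (A y).image (fun a => c a y) :=
    ⟨_, rfl⟩
  have hSm : ∀ y q, q ∈ S y ↔ ∃ a ∈ A y, c a y = q := by
    intro y q
    rw [hS]
    exact mem_image
  obtain ⟨R, hR⟩ : ∃ R : V → Finset (V × Fin Q), R = fun v => (nb G v ∩ X).biUnion S := ⟨_, rfl⟩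
  have hRm : ∀ v q, q ∈ R v ↔ ∃ y, (G.Adj v y ∧ y ∈ X) ∧ q ∈ S y := by
    intro v q
    rw [hR]
    dsimp only
    rw [mem_biUnion]
    refine exists_congr fun y => ?_
    rw [mem_inter, mem_nb]
  have hScard : ∀ y ∈ X, (S y).card = s := by
    intro y hy
    rw [hS]
    dsimp only
    rw [card_image_of_injective, (hA y hy).2]
    intro a b hab
    have h1 := congrArg Prod.fst hab
    dsimp only at h1
    rw [hc1, hc1] at h1
    exact h1
  apply colour_cells (T := V × Fin Q) K hm hs hr X S R hScard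
    (d := (D + D * D) * (D + D * D))
  · -- few cells
    intro v hv
    obtain ⟨R1, hR1⟩ : ∃ R1 : Finset (V × Fin Q), R1 = univ.filter
      (fun q => κ ≤ (cls G ψ v q.1 q.2).card) := ⟨_, rfl⟩
    obtain ⟨R2, hR2⟩ : ∃ R2 : Finset (V × Fin Q), R2 = (insert v (nb G v)) ×ˢ univ := ⟨_, rfl⟩
    obtain ⟨R3, hR3⟩ : ∃ R3 : Finset (V × Fin Q), R3 = (nb G v).biUnion
      (fun y => if Lev G ψ κ M (L + 1) v y then ∅ else
        (cand G ψ κ (Lev G ψ κ M L) v y).image (fun a => c a y)) := ⟨_, rfl⟩
    obtain ⟨R4, hR4⟩ : ∃ R4 : Finset (V × Fin Q), R4 =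
      ((nb G v).filter (fun y => Lev G ψ κ M (L + 1) v y) ∩ X).biUnion S := ⟨_, rfl⟩
    have k1 : R1.card ≤ D * D / κ := by
      rw [hR1]
      exact few_thick hκ hψ hD v
    have k2 : R2.card ≤ (D + 1) * Q := by
      rw [hR2, card_product, card_univ, Fintype.card_fin]
      apply Nat.mul_le_mul_right
      refine (card_insert_le _ _).trans ?_
      have := hD v
      omega
    have k3 : R3.card ≤ D * M := by
      rw [hR3]
      refine card_biUnion_le.trans ?_
      calc _ ≤ ∑ y ∈ nb G v, M := by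
            refine sum_le_sum fun y hy => ?_
            split_ifs with h1
            · simp
            · refine card_image_le.trans ?_
              by_contra h2
              push Not at h2
              exact h1 ⟨mem_nb.1 hy, h2.le⟩
        _ = (nb G v).card * M := by rw [sum_const, smul_eq_mul]
        _ ≤ D * M := Nat.mul_le_mul_right _ (hD v)
    have k4 : R4.card ≤ s * s := by
      rw [hR4]
      refine card_biUnion_le.trans ?_
      calc _ ≤ ∑ y ∈ (nb G v).filter (fun y => Lev G ψ κ M (L + 1) v y) ∩ X, s := by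
            refine sum_le_sum fun y hy => ?_
            exact (hScard y (mem_inter.1 hy).2).le
        _ = ((nb G v).filter (fun y => Lev G ψ κ M (L + 1) v y) ∩ X).card * s := by
            rw [sum_const, smul_eq_mul]
        _ ≤ s * s := by
          apply Nat.mul_le_mul_right
          exact (card_le_card inter_subset_left).trans ((hXm v).1 hv).2.le
    have hsub : R v ⊆ R1 ∪ R2 ∪ R3 ∪ R4 := by
      intro q hq
      rw [hRm] at hq
      obtain ⟨y, ⟨hy1, hy2⟩, hy3⟩ := hq
      by_cases h1 : Lev G ψ κ M (L + 1) v y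
      · apply mem_union_right
        rw [hR4, mem_biUnion]
        refine ⟨y, ?_, hy3⟩
        rw [mem_inter, mem_filter, mem_nb]
        exact ⟨⟨hy1, h1⟩, hy2⟩
      · rw [hSm] at hy3
        obtain ⟨a, ha1, ha2⟩ := hy3
        have ha3 := hA1 y hy2 a ha1
        by_cases h2 : a = v ∨ G.Adj v a
        · apply mem_union_left
          apply mem_union_left
          apply mem_union_right
          rw [hR2, mem_product, ← ha2, hc1, mem_insert, mem_nb]
          exact ⟨h2, mem_univ _⟩
        · push Not at h2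
          by_cases h3 : κ ≤ (cls G ψ v a (ψ a y)).card
          · apply mem_union_left
            apply mem_union_left
            apply mem_union_left
            rw [hR1, mem_filter, ← ha2, hc1, hc2]
            exact ⟨mem_univ _, h3⟩
          · apply mem_union_left
            apply mem_union_right
            rw [hR3, mem_biUnion]
            refine ⟨y, mem_nb.2 hy1, ?_⟩
            rw [if_neg h1, mem_image]
            refine ⟨a, ?_, ha2⟩
            rw [mem_cand]
            exact ⟨ha3.1, h2.2, h2.1, not_le.1 h3, ha3.2⟩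
    have h5 := card_le_card hsub
    have h6 := card_union_le (R1 ∪ R2 ∪ R3) R4
    have h7 := card_union_le (R1 ∪ R2) R3
    have h8 := card_union_le R1 R2
    omega
  · -- disjoint
    intro v hv
    rw [disjoint_left]
    intro q hq hq'
    rw [hSm] at hq
    rw [hRm] at hq'
    obtain ⟨a, ha1, rfl⟩ := hq
    obtain ⟨y, ⟨hy1, hy2⟩, hy3⟩ := hq'
    rw [hSm] at hy3
    obtain ⟨b, hb1, hb2⟩ := hy3
    have h1 := congrArg Prod.fst hb2
    rw [hc1, hc1] at h1
    subst h1
    have h2 := congrArg (fun q : V × Fin Q => (q.2 : ℕ)) hb2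
    simp only [hc2] at h2
    exact hprop b v y (hA1 v hv b ha1).1.symm (hA1 y hy2 b hb1).1.symm hy1 h2.symm
  · have : 1 ≤ D + D * D := by omega
    exact Nat.mul_pos this this
  · -- few dependent events
    intro v hv
    have hW : ∀ u ∈ X, ∀ q, q ∈ S u ∨ q ∈ R u → q.1 ∈ ball G u := by
      intro u hu q hq
      rw [mem_ball]
      rcases hq with hq | hq
      · rw [hSm] at hq
        obtain ⟨a, ha, rfl⟩ := hq
        rw [hc1]
        exact Or.inl (hA1 u hu a ha).1
      · rw [hRm] at hq
        obtain ⟨y, ⟨hy1, hy2⟩, hy3⟩ := hq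
        rw [hSm] at hy3
        obtain ⟨a, ha, rfl⟩ := hy3
        rw [hc1]
        exact Or.inr ⟨y, hy1, (hA1 y hy2 a ha).1⟩
    refine ⟨(ball G v).biUnion (ball G), ?_, ?_⟩
    swap
    · intro u hu q hq1 hq2
      rw [mem_biUnion]
      exact ⟨q.1, hW v hv q hq1, ball_symm (hW u hu q hq2)⟩
    refine card_biUnion_le.trans ?_
    calc ∑ a ∈ ball G v, (ball G a).card ≤ ∑ a ∈ ball G v, (D + D * D) :=
          sum_le_sum fun a _ => card_ball hD a
      _ = (ball G v).card * (D + D * D) := by rw [sum_const, smul_eq_mul]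
      _ ≤ (D + D * D) * (D + D * D) := Nat.mul_le_mul_right _ (card_ball hD v)
  · exact hK
  · -- neighbours
    intro v hv u hu hvu q hq
    rw [hRm]
    exact ⟨u, ⟨hvu, hu⟩, hq⟩

/-- greedy colouring -/
theorem low_colour {G : SimpleGraph V} {s : ℕ} (X : Finset V) (hX : ∀ v ∈ X, (nb G v).card < s) :
    ∃ f : V → ℕ, (∀ v ∈ X, f v < s) ∧ ∀ v ∈ X, ∀ u ∈ X, G.Adj v u → f v ≠ f u := by
  induction X using Finset.induction_on with
  | empty => exact ⟨fun _ => 0, by simp, by simp⟩
  | insert v X hv ih =>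
    obtain ⟨f, hf1, hf2⟩ := ih fun u hu => hX u (mem_insert_of_mem hu)
    have h1 : ((range s) \ (nb G v).image f).Nonempty := by
      rw [← card_pos]
      have h2 := le_card_sdiff ((nb G v).image f) (range s)
      have h3 : ((nb G v).image f).card ≤ (nb G v).card := card_image_le
      have h4 := hX v (mem_insert_self _ _)
      rw [card_range] at h2
      omega
    obtain ⟨x, hx⟩ := h1
    rw [mem_sdiff, mem_range] at hx
    have hne : ∀ u, G.Adj v u → f u ≠ x := by
      intro u hu heq
      exact hx.2 (mem_image.2 ⟨u, mem_nb.2 hu, heq⟩)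
    refine ⟨Function.update f v x, ?_, ?_⟩
    · intro u hu
      by_cases huv : u = v
      · rw [huv, Function.update_self]
        exact hx.1
      · rw [Function.update_of_ne huv]
        rw [mem_insert] at hu
        exact hf1 u (hu.resolve_left huv)
    · intro u hu w hw huw
      rw [mem_insert] at hu hw
      by_cases huv : u = v
      · have hwv : w ≠ v := by
          rintro rfl
          rw [huv] at huw
          exact G.irrefl huw
        rw [huv, Function.update_self, Function.update_of_ne hwv]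
        rw [huv] at huw
        exact (hne w huw).symm
      · by_cases hwv : w = v
        · rw [hwv, Function.update_self, Function.update_of_ne huv]
          rw [hwv] at huw
          exact hne u huw.symm
        · rw [Function.update_of_ne huv, Function.update_of_ne hwv]
          exact hf2 u (hu.resolve_left huv) w (hw.resolve_left hwv) huw

/-- **If no arc has level `h` then there is a colouring.** -/
theorem total_colour {G : SimpleGraph V} {ψ : V → V → ℕ} {Q κ M s D m K h : ℕ} (hκ : 0 < κ)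
    (hs : 1 ≤ s) (hm : 1 ≤ m) (hD1 : 1 ≤ D)
    (hψ : ∀ a y, ψ a y < Q)
    (hprop : ∀ a y y', G.Adj a y → G.Adj a y' → G.Adj y y' → ψ a y ≠ ψ a y')
    (hD : ∀ v, (nb G v).card ≤ D)
    (hr : 8 * (D * D / κ + (D + 1) * Q + D * M + s * s) ≤ m * s)
    (hK : 4 * ((D + D * D) * (D + D * D)) ≤ 2 ^ K)
    (hno : ∀ v y, ¬ Lev G ψ κ M h v y) :
    G.Colorable ((h + 1) * (s + K * m)) := by
  have hex : ∀ y : V, ∃ i, ((nb G y).filter (fun a => Lev G ψ κ M i y a)).card < s := by
    intro y
    refine ⟨h, ?_⟩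
    have : (nb G y).filter (fun a => Lev G ψ κ M h y a) = ∅ := by
      apply filter_false_of_mem
      intro a _
      exact hno y a
    rw [this, card_empty]
    exact hs
  have hile : ∀ y, Nat.find (hex y) ≤ h := by
    intro y
    apply Nat.find_min'
    have : (nb G y).filter (fun a => Lev G ψ κ M h y a) = ∅ := by
      apply filter_false_of_mem
      intro a _
      exact hno y a
    rw [this, card_empty]
    exact hs
  -- the classes
  have hcl : ∀ i : ℕ, ∃ f : V → ℕ, (∀ v, Nat.find (hex v) = i → f v < s + K * m) ∧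
      ∀ v u, Nat.find (hex v) = i → Nat.find (hex u) = i → G.Adj v u → f v ≠ f u := by
    intro i
    rcases i with _ | L
    · obtain ⟨f, hf1, hf2⟩ := low_colour (G := G) (s := s)
        (univ.filter (fun v => Nat.find (hex v) = 0)) (by
          intro v hv
          rw [mem_filter] at hv
          have h1 := Nat.find_spec (hex v)
          rw [hv.2] at h1
          have h2 : (nb G v).filter (fun a => Lev G ψ κ M 0 v a) = nb G v := by
            apply filter_true_of_mem
            intro a ha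
            exact mem_nb.1 ha
          rw [h2] at h1
          exact h1)
      refine ⟨f, ?_, ?_⟩
      · intro v hv
        have := hf1 v (mem_filter.2 ⟨mem_univ _, hv⟩)
        omega
      · intro v u hv hu hvu
        exact hf2 v (mem_filter.2 ⟨mem_univ _, hv⟩) u (mem_filter.2 ⟨mem_univ _, hu⟩) hvu
    · obtain ⟨f, hf1, hf2⟩ := class_colour (L := L) hκ hs hm hD1 hψ hprop hD hr hK
      have hmem : ∀ v, Nat.find (hex v) = L + 1 → v ∈ XL G ψ κ M s L := by
        intro v hv
        unfold XL
        rw [mem_filter]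
        refine ⟨mem_univ _, ?_, ?_⟩
        · have h1 := Nat.find_min (hex v) (m := L) (by omega)
          omega
        · have h1 := Nat.find_spec (hex v)
          rw [hv] at h1
          exact h1
      refine ⟨f, ?_, ?_⟩
      · intro v hv
        have := hf1 v (hmem v hv)
        omega
      · intro v u hv hu hvu
        exact hf2 v (hmem v hv) u (hmem u hu) hvu
  choose F hF1 hF2 using hcl
  obtain ⟨P, hP⟩ : ∃ P : ℕ, P = s + K * m := ⟨_, rfl⟩
  rw [← hP] at hF1 ⊢
  obtain ⟨g, hg⟩ : ∃ g : V → ℕ, g = fun v => Nat.find (hex v) * P + F (Nat.find (hex v)) v :=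
    ⟨_, rfl⟩
  have hgl : ∀ v, g v < (h + 1) * P := by
    intro v
    rw [hg]
    dsimp only
    have h1 := hF1 (Nat.find (hex v)) v rfl
    have h2 := hile v
    calc Nat.find (hex v) * P + F (Nat.find (hex v)) v < Nat.find (hex v) * P + P := by omega
      _ = (Nat.find (hex v) + 1) * P := by ring
      _ ≤ (h + 1) * P := Nat.mul_le_mul_right _ (by omega)
  have hPpos : 0 < P := by omega
  refine ⟨SimpleGraph.Coloring.mk (fun v => ⟨g v, hgl v⟩) ?_⟩
  intro v u hvu heq
  have h1 : g v = g u := Fin.ext_iff.1 heq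
  rw [hg] at h1
  dsimp only at h1
  have hv := hF1 (Nat.find (hex v)) v rfl
  have hu := hF1 (Nat.find (hex u)) u rfl
  have h2 : Nat.find (hex v) = Nat.find (hex u) := by
    have e1 : (Nat.find (hex v) * P + F (Nat.find (hex v)) v) / P = Nat.find (hex v) := by
      rw [mul_comm, Nat.mul_add_div hPpos, Nat.div_eq_of_lt hv, add_zero]
    have e2 : (Nat.find (hex u) * P + F (Nat.find (hex u)) u) / P = Nat.find (hex u) := by
      rw [mul_comm, Nat.mul_add_div hPpos, Nat.div_eq_of_lt hu, add_zero]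
    rw [← e1, ← e2, h1]
  rw [h2] at h1
  exact hF2 (Nat.find (hex u)) v u h2 rfl hvu (by omega)

end Pool.Agent.U797.LV
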