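import Pool.Agent.U797.LV.Ext

set_option autoImplicit false

/-!
# Arcs of large level give induced trees
-/

namespace Pool.Agent.U797.LV

open Finset

/-- the vertices of a tree in an order in which every vertex has one earlier neighbour -/
theorem order : ∀ n : ℕ, ∀ (α : Type) [Fintype α] [DecidableEq α] (T : SimpleGraph α),
    T.IsTree → Fintype.card α = n + 1 →
    ∃ (e : α → ℕ) (p : ℕ → ℕ), Function.Injective e ∧ (∀ a, e a < n + 1) ∧ p 0 = 0 ∧
      (∀ i, 0 < i → p i < i) ∧ ∀ a b, e a < e b → (T.Adj a b ↔ p (e b) = e a) := by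
  intro n
  induction n with
  | zero =>
    intro α _ _ T hT hV
    have hsub : Subsingleton α := Fintype.card_le_one_iff_subsingleton.1 (by omega)
    refine ⟨fun _ => 0, fun i => i - 1, fun v w _ => Subsingleton.elim v w,
      fun _ => by dsimp only; omega, rfl, fun i hi => by dsimp only; omega, ?_⟩
    intro a b hab
    exact absurd hab (lt_irrefl _)
  | succ n ih =>
    intro α _ _ T hT hV
    classical
    have hnt : Nontrivial α := by
      rw [← Fintype.one_lt_card_iff_nontrivial]
      omega
    obtain ⟨l, hl⟩ := hT.exists_vert_degree_one_of_nontrivial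
    have hconn := hT.connected.induce_compl_singleton_of_degree_eq_one hl
    have hT' : (T.induce ({l}ᶜ : Set α)).IsTree := ⟨hconn, hT.isAcyclic.induce _⟩
    obtain ⟨u, hu, huu⟩ := SimpleGraph.degree_eq_one_iff_existsUnique_adj.1 hl
    have hu' : u ∈ ({l}ᶜ : Set α) := fun h => hu.ne h.symm
    have hcard : Fintype.card ({l}ᶜ : Set α) = n + 1 := by
      rw [Fintype.card_compl_set, hV]
      simp
    obtain ⟨e, p, h1, h2, h3, h4, h5⟩ := ih _ (T.induce ({l}ᶜ : Set α)) hT' hcard
    have hmem : ∀ v, v ≠ l → v ∈ ({l}ᶜ : Set α) := fun v h => h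
    let E : α → ℕ := fun v => if h : v = l then n + 1 else e ⟨v, hmem v h⟩
    have hEl : E l = n + 1 := by
      simp only [E]
      rw [dif_pos trivial]
    have hE : ∀ v (h : v ≠ l), E v = e ⟨v, hmem v h⟩ := by
      intro v h
      simp only [E]
      rw [dif_neg h]
    have hElt : ∀ v, v ≠ l → E v < n + 1 := by
      intro v h
      rw [hE v h]
      exact h2 _
    refine ⟨E, Function.update p (n + 1) (e ⟨u, hu'⟩), ?_, ?_, ?_, ?_, ?_⟩
    · intro v w hvw
      by_cases hv : v = l
      · by_cases hw : w = l
        · rw [hv, hw]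
        · rw [hv, hEl] at hvw
          have := hElt w hw
          omega
      · by_cases hw : w = l
        · rw [hw, hEl] at hvw
          have := hElt v hv
          omega
        · rw [hE v hv, hE w hw] at hvw
          exact congrArg Subtype.val (h1 hvw)
    · intro v
      by_cases hv : v = l
      · rw [hv, hEl]
        omega
      · have := hElt v hv
        omega
    · rw [Function.update_of_ne (by omega)]
      exact h3
    · intro i hi
      by_cases hin : i = n + 1
      · rw [hin, Function.update_self]
        exact h2 _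
      · rw [Function.update_of_ne hin]
        exact h4 i hi
    · intro a b hab
      by_cases hb : b = l
      · have ha : a ≠ l := by
          rintro rfl
          rw [hb] at hab
          exact lt_irrefl _ hab
        rw [hb, hEl, Function.update_self, hE a ha]
        constructor
        · intro hA
          have := huu a hA.symm
          subst this
          rfl
        · intro hA
          have h6 := congrArg Subtype.val (h1 hA)
          change u = a at h6
          rw [← h6]
          exact hu.symm
      · have hb1 := hElt b hb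
        have ha : a ≠ l := by
          rintro rfl
          rw [hEl] at hab
          omega
        rw [Function.update_of_ne (by omega), hE a ha, hE b hb, ← h5 _ _ (by
          rw [← hE a ha, ← hE b hb]
          exact hab)]
        rfl

open scoped Classical

variable {V : Type} [Fintype V]

theorem embed {G : SimpleGraph V} {ψ : V → V → ℕ} {κ Q M k : ℕ} (hψ : ∀ a y, ψ a y < Q)
    (hfree : G.CliqueFree k) (hk : 1 ≤ k) {D : ℝ} (hD : ∀ v, ((nb G v).card : ℝ) ≤ D)
    {n : ℕ} {T : SimpleGraph (Fin (n + 1))} (hT : T.IsTree) {e2 e3 e4 : ℝ}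
    (h2 : 0 < e2) (h3 : 0 < e3) (h4 : 0 < e4) (hM : 0 < M)
    (hX : n * (1 + e2 + (Q * κ : ℕ) * D / e2 + e3 / e2 + (Q * κ : ℕ) * D ^ 2 / e3 + e4 / e3 +
      (Q * κ : ℕ) * D ^ 3 / e4) ≤ M / (2 * k) ^ n / 2)
    {v0 y0 : V} (hL : Lev G ψ κ M (n + 1) v0 y0) : T.IsIndContained G := by
  obtain ⟨e, p, he1, he2, hp0, hp, hadj⟩ := order n (Fin (n + 1)) T hT (Fintype.card_fin _)
  have hk1 : (1 : ℝ) ≤ k := by exact_mod_cast hk
  have hM0 : (0 : ℝ) < M := by exact_mod_cast hM
  have hD0 : 0 ≤ D := le_trans (Nat.cast_nonneg _) (hD v0)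
  have main : ∀ j : ℕ, j ≤ n → ∃ (φ : ℕ → V) (C : ℕ → Finset V) (l : ℕ → ℕ),
      Cfg G ψ κ M p (n + 1) (M / (2 * k) ^ j) e2 e3 e4 (j + 1) φ C l := by
    intro j
    induction j with
    | zero =>
      intro _
      refine ⟨fun _ => y0, fun _ => cand G ψ κ (Lev G ψ κ M n) v0 y0, fun _ => n,
        ?_, ?_, ?_, ?_, ?_, ?_, ?_, ?_, ?_⟩
      · intro i _ a ha
        exact mem_nb.2 (mem_cand.1 ha).1
      · intro i _ a ha
        exact (mem_cand.1 ha).2.2.2.2
      · intro i _
        omega
      · intro i _
        rw [pow_zero, div_one]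
        exact_mod_cast hL.2
      · intro i hi i' hi' hne
        omega
      · intro i hi i' hi' hne
        omega
      · intro i hi i' hi' hne
        omega
      · intro i hi i' hi' _
        omega
      · intro i hi i' hi' hne
        omega
    | succ j ih =>
      intro hj
      obtain ⟨φ, C, l, H⟩ := ih (by omega)
      have hpow : (0 : ℝ) < (2 * k) ^ j := by positivity
      have hpow1 : (1 : ℝ) ≤ (2 * k) ^ j := one_le_pow₀ (by linarith)
      have hle : (M : ℝ) / (2 * k) ^ n ≤ M / (2 * k) ^ j := by
        apply div_le_div_of_nonneg_left hM0.le hpow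
        exact pow_le_pow_right₀ (by linarith) (by omega)
      have hS : 0 ≤ 1 + e2 + (Q * κ : ℕ) * D / e2 + e3 / e2 + (Q * κ : ℕ) * D ^ 2 / e3 + e4 / e3 +
        (Q * κ : ℕ) * D ^ 3 / e4 := by positivity
      have h5 := ext hψ hfree hk hD hp0 hp h2 h3 h4 (j := j + 1) (by omega)
        (h := n + 1) (by omega)
        (m := M / (2 * k) ^ j) (div_le_self hM0.le hpow1) (by positivity) (by
          refine le_trans ?_ (hX.trans (by linarith))
          apply mul_le_mul_of_nonneg_right _ hS
          exact_mod_cast hj) H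
      have h6 : (M : ℝ) / (2 * k) ^ j / (2 * k) = M / (2 * k) ^ (j + 1) := by
        rw [pow_succ, div_div]
      rw [h6] at h5
      exact h5
  obtain ⟨φ, C, l, H⟩ := main n le_rfl
  refine ⟨{ toFun := fun a => φ (e a), inj' := ?_, map_rel_iff' := ?_ }⟩
  · intro a b hab
    exact he1 (H.inj _ (he2 a) _ (he2 b) hab)
  · intro a b
    change G.Adj (φ (e a)) (φ (e b)) ↔ T.Adj a b
    rcases lt_trichotomy (e a) (e b) with hlt | heq | hgt
    · rw [H.adj _ (he2 a) _ (he2 b) hlt]
      exact (hadj a b hlt).symm
    · have hab := he1 heq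
      subst hab
      exact ⟨fun h => absurd h (G.irrefl), fun h => absurd h (T.irrefl)⟩
    · rw [G.adj_comm, T.adj_comm, H.adj _ (he2 b) _ (he2 a) hgt]
      exact (hadj b a hgt).symm

end Pool.Agent.U797.LV
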