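import Pool.Agent.U797.LV.Lev

set_option autoImplicit false

/-!
# Adding a leaf to an induced copy of a tree
-/

namespace Pool.Agent.U797.LV

open Finset
open scoped Classical

variable {V : Type} [Fintype V]

/-- an induced copy of the tree with the vertices `0, ..., j - 1` and the parents `p`, together with
sets of candidates for further children -/
structure Cfg (G : SimpleGraph V) (ψ : V → V → ℕ) (κ M : ℕ) (p : ℕ → ℕ) (h : ℕ) (m e2 e3 e4 : ℝ)
    (j : ℕ) (φ : ℕ → V) (C : ℕ → Finset V) (l : ℕ → ℕ) : Prop where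
  sub : ∀ i < j, C i ⊆ nb G (φ i)
  lev : ∀ i < j, ∀ y ∈ C i, Lev G ψ κ M (l i) (φ i) y
  hl : ∀ i < j, h ≤ l i + i + 1
  size : ∀ i < j, m ≤ ((C i).card : ℝ)
  f2 : ∀ i < j, ∀ i' < j, i ≠ i' → ((C i ∩ nb G (φ i')).card : ℝ) ≤ e2
  f3 : ∀ i < j, ∀ i' < j, i ≠ i' → p i' ≠ i → ∑ a ∈ C i, cd G a (φ i') ≤ e3
  f4 : ∀ i < j, ∀ i' < j, i ≠ i' → ∑ a ∈ C i, ∑ x ∈ C i', cd G a x ≤ e4
  inj : ∀ i < j, ∀ i' < j, φ i = φ i' → i = i'
  adj : ∀ i < j, ∀ i' < j, i < i' → (G.Adj (φ i) (φ i') ↔ p i' = i)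

theorem sum_ind (N T : Finset V) : ∑ a ∈ N, (if a ∈ T then (1 : ℝ) else 0) = ((N ∩ T).card : ℝ) := by
  rw [sum_boole, filter_mem_eq_inter]

theorem mul_few {A : ℝ} {n : ℕ} {B : ℕ → Finset V} (h : ∀ i < n, ((B i).card : ℝ) ≤ A) :
    (((range n).biUnion B).card : ℝ) ≤ n * A := by
  calc (((range n).biUnion B).card : ℝ) ≤ ((∑ i ∈ range n, (B i).card : ℕ) : ℝ) := by
        exact_mod_cast card_biUnion_le
    _ = ∑ i ∈ range n, ((B i).card : ℝ) := by push_cast; rfl
    _ ≤ ∑ i ∈ range n, A := sum_le_sum fun i hi => h i (mem_range.1 hi)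
    _ = n * A := by rw [sum_const, card_range, nsmul_eq_mul]

theorem card_union7 (a b c d e f g : Finset V) :
    (((a ∪ b ∪ c ∪ d ∪ e ∪ f ∪ g).card : ℕ) : ℝ) ≤
      a.card + b.card + c.card + d.card + e.card + f.card + g.card := by
  have h1 := card_union_le (a ∪ b ∪ c ∪ d ∪ e ∪ f) g
  have h2 := card_union_le (a ∪ b ∪ c ∪ d ∪ e) f
  have h3 := card_union_le (a ∪ b ∪ c ∪ d) e
  have h4 := card_union_le (a ∪ b ∪ c) d
  have h5 := card_union_le (a ∪ b) c
  have h6 := card_union_le a b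
  have : (a ∪ b ∪ c ∪ d ∪ e ∪ f ∪ g).card ≤
      a.card + b.card + c.card + d.card + e.card + f.card + g.card := by omega
  exact_mod_cast this

theorem ext {G : SimpleGraph V} {ψ : V → V → ℕ} {κ Q M k : ℕ} (hψ : ∀ a y, ψ a y < Q)
    (hfree : G.CliqueFree k) (hk : 1 ≤ k) {D : ℝ} (hD : ∀ v, ((nb G v).card : ℝ) ≤ D)
    {p : ℕ → ℕ} (hp0 : p 0 = 0) (hp : ∀ i, 0 < i → p i < i) {h : ℕ} {m e2 e3 e4 : ℝ}
    (h2 : 0 < e2) (h3 : 0 < e3) (h4 : 0 < e4) {j : ℕ} (hj : 0 < j) (hjh : j < h)
    (hmM : m ≤ M) (hm : 0 < m)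
    (hX : j * (1 + e2 + (Q * κ : ℕ) * D / e2 + e3 / e2 + (Q * κ : ℕ) * D ^ 2 / e3 + e4 / e3 +
      (Q * κ : ℕ) * D ^ 3 / e4) ≤ m / 2)
    {φ : ℕ → V} {C : ℕ → Finset V} {l : ℕ → ℕ}
    (H : Cfg G ψ κ M p h m e2 e3 e4 j φ C l) :
    ∃ (φ' : ℕ → V) (C' : ℕ → Finset V) (l' : ℕ → ℕ),
      Cfg G ψ κ M p h (m / (2 * k)) e2 e3 e4 (j + 1) φ' C' l' := by
  obtain ⟨r, hr⟩ : ∃ r : ℕ, r = p j := ⟨_, rfl⟩
  have hrj : r < j := by rw [hr]; exact hp j hj
  have hk0 : (0 : ℝ) < k := by exact_mod_cast hk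
  have hD0 : 0 ≤ D := le_trans (Nat.cast_nonneg _) (hD (φ 0))
  have hlr : 0 < l r := by
    have := H.hl r hrj
    omega
  obtain ⟨q, hq⟩ : ∃ q, l r = q + 1 := ⟨l r - 1, by omega⟩
  obtain ⟨N, hN⟩ : ∃ N : V → Finset V, N = fun y => cand G ψ κ (Lev G ψ κ M q) (φ r) y := ⟨_, rfl⟩
  have hNm : ∀ y ∈ C r, M ≤ (N y).card := by
    intro y hy
    have h1 := H.lev r hrj y hy
    rw [hq] at h1
    rw [hN]
    exact h1.2
  have hNn : ∀ y a, a ∈ N y → G.Adj y a ∧ ¬ G.Adj (φ r) a ∧ Lev G ψ κ M q y a := by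
    intro y a ha
    rw [hN] at ha
    have := mem_cand.1 ha
    exact ⟨this.1, this.2.1, this.2.2.2.2⟩
  have hsum : ∀ g : V → ℝ, (∀ a, 0 ≤ g a) →
      ∑ y ∈ C r, ∑ a ∈ N y, g a ≤ (Q * κ : ℕ) * ∑ a, g a := by
    intro g hg
    rw [hN]
    exact sum_cand hψ (H.sub r hrj) g hg
  have hlam : (0 : ℝ) ≤ (Q * κ : ℕ) := Nat.cast_nonneg _
  -- the bad sets
  obtain ⟨b1, hb1⟩ : ∃ b1 : ℕ → Finset V, b1 = fun i => if i = r then ∅ else C r ∩ nb G (φ i) :=
    ⟨_, rfl⟩
  obtain ⟨b2, hb2⟩ : ∃ b2 : ℕ → Finset V, b2 = fun i =>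
      (C r).filter (fun y => e2 < ((N y ∩ nb G (φ i)).card : ℝ)) := ⟨_, rfl⟩
  obtain ⟨b3, hb3⟩ : ∃ b3 : ℕ → Finset V, b3 = fun i => if i = r then ∅ else
      (C r).filter (fun y => e2 < ((C i ∩ nb G y).card : ℝ)) := ⟨_, rfl⟩
  obtain ⟨b4, hb4⟩ : ∃ b4 : ℕ → Finset V, b4 = fun i =>
      (C r).filter (fun y => e3 < ∑ a ∈ N y, cd G a (φ i)) := ⟨_, rfl⟩
  obtain ⟨b5, hb5⟩ : ∃ b5 : ℕ → Finset V, b5 = fun i => if i = r then ∅ else
      (C r).filter (fun y => e3 < ∑ a ∈ C i, cd G a y) := ⟨_, rfl⟩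
  obtain ⟨b6, hb6⟩ : ∃ b6 : ℕ → Finset V, b6 = fun i =>
      (C r).filter (fun y => e4 < ∑ a ∈ N y, ∑ x ∈ C i, cd G a x) := ⟨_, rfl⟩
  have c1 : ∀ i < j, ((b1 i).card : ℝ) ≤ e2 := by
    intro i hi
    rw [hb1]
    dsimp only
    split_ifs with hir
    · simp [h2.le]
    · exact H.f2 r hrj i hi (Ne.symm hir)
  have c2 : ∀ i < j, ((b2 i).card : ℝ) ≤ (Q * κ : ℕ) * D / e2 := by
    intro i hi
    rw [hb2]
    dsimp only
    apply few (fun y => Nat.cast_nonneg _) h2
    have h5 := hsum (fun a => if a ∈ nb G (φ i) then 1 else 0) (fun a => by split_ifs <;> simp)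
    simp only [sum_ind] at h5
    rw [univ_inter] at h5
    exact h5.trans (mul_le_mul_of_nonneg_left (hD _) hlam)
  have c3 : ∀ i < j, ((b3 i).card : ℝ) ≤ e3 / e2 := by
    intro i hi
    rw [hb3]
    dsimp only
    split_ifs with hir
    · simp
      positivity
    · apply few (fun y => Nat.cast_nonneg _) h2
      by_cases hpi : p i = r
      · rw [sum_inter_nb]
        have h5 := H.f3 i hi r hrj hir (by
          rcases Nat.eq_zero_or_pos r with h0 | h0
          · rw [h0, hp0]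
            rw [h0] at hir
            exact fun h => hir h.symm
          · have h6 := hp r h0
            rcases Nat.eq_zero_or_pos i with h7 | h7
            · rw [h7, hp0] at hpi
              exact absurd hpi (by omega)
            · have := hp i h7
              omega)
        refine le_trans (sum_le_sum fun a _ => ?_) h5
        unfold cd
        rw [inter_comm (nb G a)]
        exact_mod_cast card_le_card (inter_subset_inter_right (H.sub r hrj))
      · have h5 := H.f3 r hrj i hi (Ne.symm hir) hpi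
        refine le_trans (sum_le_sum fun a _ => ?_) h5
        unfold cd
        rw [inter_comm (nb G a)]
        exact_mod_cast card_le_card (inter_subset_inter_right (H.sub i hi))
  have c4 : ∀ i < j, ((b4 i).card : ℝ) ≤ (Q * κ : ℕ) * D ^ 2 / e3 := by
    intro i hi
    rw [hb4]
    dsimp only
    apply few (fun y => sum_nonneg fun a _ => cd_nonneg G _ _) h3
    have h5 := hsum (fun a => cd G a (φ i)) (fun a => cd_nonneg G _ _)
    exact h5.trans (mul_le_mul_of_nonneg_left (sum_cd hD _) hlam)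
  have c5 : ∀ i < j, ((b5 i).card : ℝ) ≤ e4 / e3 := by
    intro i hi
    rw [hb5]
    dsimp only
    split_ifs with hir
    · simp
      positivity
    · apply few (fun y => sum_nonneg fun a _ => cd_nonneg G _ _) h3
      rw [sum_comm]
      exact H.f4 i hi r hrj hir
  have c6 : ∀ i < j, ((b6 i).card : ℝ) ≤ (Q * κ : ℕ) * D ^ 3 / e4 := by
    intro i hi
    rw [hb6]
    dsimp only
    apply few (fun y => sum_nonneg fun a _ => sum_nonneg fun x _ => cd_nonneg G _ _) h4
    have h5 := hsum (fun a => ∑ x ∈ C i, cd G a x) (fun a => sum_nonneg fun x _ => cd_nonneg G _ _)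
    refine h5.trans (mul_le_mul_of_nonneg_left ?_ hlam)
    rw [sum_comm]
    calc ∑ x ∈ C i, ∑ a, cd G a x ≤ ∑ x ∈ C i, D ^ 2 := sum_le_sum fun x _ => sum_cd hD x
      _ = ((C i).card : ℝ) * D ^ 2 := by rw [sum_const, nsmul_eq_mul]
      _ ≤ D * D ^ 2 := by
        apply mul_le_mul_of_nonneg_right _ (by positivity)
        refine le_trans ?_ (hD (φ i))
        exact_mod_cast card_le_card (H.sub i hi)
      _ = D ^ 3 := by ring
  obtain ⟨B, hB⟩ : ∃ B : ℕ → Finset V, B = fun i => {φ i} ∪ b1 i ∪ b2 i ∪ b3 i ∪ b4 i ∪ b5 i ∪ b6 i :=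
    ⟨_, rfl⟩
  obtain ⟨E, hE⟩ : ∃ E : Finset V, E = (range j).biUnion B := ⟨_, rfl⟩
  have hEc : (E.card : ℝ) ≤ m / 2 := by
    rw [hE]
    refine le_trans (mul_few (A := 1 + e2 + (Q * κ : ℕ) * D / e2 + e3 / e2 +
      (Q * κ : ℕ) * D ^ 2 / e3 + e4 / e3 + (Q * κ : ℕ) * D ^ 3 / e4) ?_) hX
    intro i hi
    rw [hB]
    dsimp only
    refine (card_union7 _ _ _ _ _ _ _).trans ?_
    have := c1 i hi
    have := c2 i hi
    have := c3 i hi
    have := c4 i hi
    have := c5 i hi
    have := c6 i hi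
    rw [card_singleton, Nat.cast_one]
    linarith
  obtain ⟨S, hS⟩ : ∃ S : Finset V, S = C r \ E := ⟨_, rfl⟩
  have hSc : m / 2 ≤ (S.card : ℝ) := by
    have h5 : (C r).card ≤ S.card + E.card := by
      rw [hS]
      have := le_card_sdiff E (C r)
      omega
    have h6 : ((C r).card : ℝ) ≤ S.card + E.card := by exact_mod_cast h5
    have h7 := H.size r hrj
    linarith
  have hSn : S.Nonempty := by
    rw [← card_pos]
    have : (0 : ℝ) < S.card := by linarith
    exact_mod_cast this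
  obtain ⟨y, hyS, hyc⟩ := non_nb k S hSn (fun T _ => hfree T)
  have hyC : y ∈ C r := by
    rw [hS, mem_sdiff] at hyS
    exact hyS.1
  have hyE : ∀ i < j, y ∉ B i := by
    intro i hi hyB
    rw [hS, mem_sdiff, hE, mem_biUnion] at hyS
    exact hyS.2 ⟨i, mem_range.2 hi, hyB⟩
  have hy : ∀ i < j, y ≠ φ i ∧ y ∉ b1 i ∧ y ∉ b2 i ∧ y ∉ b3 i ∧ y ∉ b4 i ∧ y ∉ b5 i ∧ y ∉ b6 i := by
    intro i hi
    have := hyE i hi
    rw [hB] at this
    simp only [mem_union, mem_singleton, not_or] at this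
    obtain ⟨⟨⟨⟨⟨⟨d0, d1⟩, d2⟩, d3⟩, d4⟩, d5⟩, d6⟩ := this
    exact ⟨d0, d1, d2, d3, d4, d5, d6⟩
  have hadj : G.Adj (φ r) y := mem_nb.1 (H.sub r hrj hyC)
  -- facts about the new vertex
  have a1 : ∀ i < j, i ≠ r → ¬ G.Adj (φ i) y := by
    intro i hi hir hA
    apply (hy i hi).2.1
    rw [hb1]
    dsimp only
    rw [if_neg hir, mem_inter, mem_nb]
    exact ⟨hyC, hA⟩
  have a2 : ∀ i < j, ((N y ∩ nb G (φ i)).card : ℝ) ≤ e2 := by
    intro i hi
    have := (hy i hi).2.2.1
    rw [hb2] at this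
    dsimp only at this
    rw [mem_filter, not_and, not_lt] at this
    exact this hyC
  have a3 : ∀ i < j, i ≠ r → ((C i ∩ nb G y).card : ℝ) ≤ e2 := by
    intro i hi hir
    have := (hy i hi).2.2.2.1
    rw [hb3] at this
    dsimp only at this
    rw [if_neg hir, mem_filter, not_and, not_lt] at this
    exact this hyC
  have a4 : ∀ i < j, ∑ a ∈ N y, cd G a (φ i) ≤ e3 := by
    intro i hi
    have := (hy i hi).2.2.2.2.1
    rw [hb4] at this
    dsimp only at this
    rw [mem_filter, not_and, not_lt] at this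
    exact this hyC
  have a5 : ∀ i < j, i ≠ r → ∑ a ∈ C i, cd G a y ≤ e3 := by
    intro i hi hir
    have := (hy i hi).2.2.2.2.2.1
    rw [hb5] at this
    dsimp only at this
    rw [if_neg hir, mem_filter, not_and, not_lt] at this
    exact this hyC
  have a6 : ∀ i < j, ∑ a ∈ N y, ∑ x ∈ C i, cd G a x ≤ e4 := by
    intro i hi
    have := (hy i hi).2.2.2.2.2.2
    rw [hb6] at this
    dsimp only at this
    rw [mem_filter, not_and, not_lt] at this
    exact this hyC
  -- the new configuration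
  obtain ⟨φ', hφd⟩ : ∃ φ' : ℕ → V, φ' = Function.update φ j y := ⟨_, rfl⟩
  obtain ⟨C', hCd⟩ : ∃ C' : ℕ → Finset V,
    C' = Function.update (Function.update C r (S \ nb G y)) j (N y) := ⟨_, rfl⟩
  obtain ⟨l', hld⟩ : ∃ l' : ℕ → ℕ, l' = Function.update l j q := ⟨_, rfl⟩
  have φj : φ' j = y := by rw [hφd]; exact Function.update_self _ _ _
  have φi : ∀ i < j, φ' i = φ i := by
    intro i hi
    rw [hφd]
    exact Function.update_of_ne (by omega) _ _
  have Cj : C' j = N y := by rw [hCd]; exact Function.update_self _ _ _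
  have Cr : C' r = S \ nb G y := by
    rw [hCd, Function.update_of_ne (by omega)]
    exact Function.update_self _ _ _
  have Ci : ∀ i < j, i ≠ r → C' i = C i := by
    intro i hi hir
    rw [hCd, Function.update_of_ne (by omega), Function.update_of_ne hir]
  have Cs : ∀ i < j, C' i ⊆ C i := by
    intro i hi
    by_cases hir : i = r
    · rw [hir, Cr]
      intro x hx
      rw [mem_sdiff, hS, mem_sdiff] at hx
      exact hx.1.1
    · rw [Ci i hi hir]
  have lj : l' j = q := by rw [hld]; exact Function.update_self _ _ _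
  have li : ∀ i < j, l' i = l i := by
    intro i hi
    rw [hld]
    exact Function.update_of_ne (by omega) _ _
  have hlt : ∀ i, i < j + 1 → i < j ∨ i = j := by intro i hi; omega
  have hm2 : m / (2 * k) ≤ m := by
    apply div_le_self hm.le
    have : (1 : ℝ) ≤ k := by exact_mod_cast hk
    linarith
  refine ⟨φ', C', l', ?_, ?_, ?_, ?_, ?_, ?_, ?_, ?_, ?_⟩
  · -- sub
    intro i hi
    rcases hlt i hi with hi | rfl
    · rw [φi i hi]
      exact (Cs i hi).trans (H.sub i hi)
    · rw [Cj, φj]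
      intro a ha
      exact mem_nb.2 (hNn y a ha).1
  · -- lev
    intro i hi a ha
    rcases hlt i hi with hi | rfl
    · rw [φi i hi, li i hi]
      exact H.lev i hi a (Cs i hi ha)
    · rw [Cj] at ha
      rw [φj, lj]
      exact (hNn y a ha).2.2
  · -- hl
    intro i hi
    rcases hlt i hi with hi | rfl
    · rw [li i hi]
      exact H.hl i hi
    · rw [lj]
      have := H.hl r hrj
      omega
  · -- size
    intro i hi
    rcases hlt i hi with hi | rfl
    · by_cases hir : i = r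
      · rw [hir, Cr, div_le_iff₀ (by positivity)]
        have h5 : (S.card : ℝ) ≤ k * ((S \ nb G y).card : ℝ) := by exact_mod_cast hyc
        nlinarith
      · rw [Ci i hi hir]
        exact hm2.trans (H.size i hi)
    · rw [Cj]
      refine hm2.trans (hmM.trans ?_)
      exact_mod_cast hNm y hyC
  · -- f2
    intro i hi i' hi' hne
    rcases hlt i hi with hi | rfl
    · rcases hlt i' hi' with hi' | rfl
      · rw [φi i' hi']
        refine le_trans ?_ (H.f2 i hi i' hi' hne)
        exact_mod_cast card_le_card (inter_subset_inter_right (Cs i hi))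
      · rw [φj]
        by_cases hir : i = r
        · rw [hir, Cr]
          have : (S \ nb G y) ∩ nb G y = ∅ := by
            ext x
            simp
          rw [this]
          simp [h2.le]
        · rw [Ci i hi hir]
          exact a3 i hi hir
    · rcases hlt i' hi' with hi' | rfl
      · rw [Cj, φi i' hi']
        exact a2 i' hi'
      · exact absurd rfl hne
  · -- f3
    intro i hi i' hi' hne hpi
    rcases hlt i hi with hi | rfl
    · rcases hlt i' hi' with hi' | rfl
      · rw [φi i' hi']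
        refine le_trans ?_ (H.f3 i hi i' hi' hne hpi)
        exact sum_le_sum_of_subset_of_nonneg (Cs i hi) fun a _ _ => cd_nonneg G _ _
      · rw [φj]
        have hir : i ≠ r := by
          rw [hr]
          exact Ne.symm hpi
        rw [Ci i hi hir]
        exact a5 i hi hir
    · rcases hlt i' hi' with hi' | rfl
      · rw [Cj, φi i' hi']
        exact a4 i' hi'
      · exact absurd rfl hne
  · -- f4
    intro i hi i' hi' hne
    rcases hlt i hi with hi | rfl
    · rcases hlt i' hi' with hi' | rfl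
      · refine le_trans ?_ (H.f4 i hi i' hi' hne)
        refine le_trans (sum_le_sum_of_subset_of_nonneg (Cs i hi) fun a _ _ =>
          sum_nonneg fun x _ => cd_nonneg G _ _) ?_
        exact sum_le_sum fun a _ => sum_le_sum_of_subset_of_nonneg (Cs i' hi') fun x _ _ =>
          cd_nonneg G _ _
      · rw [Cj, sum_comm]
        refine le_trans ?_ (a6 i hi)
        refine sum_le_sum fun a _ => ?_
        refine le_trans (sum_le_sum_of_subset_of_nonneg (Cs i hi) fun x _ _ => cd_nonneg G _ _) ?_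
        exact sum_le_sum fun x _ => (cd_comm G _ _).le
    · rcases hlt i' hi' with hi' | rfl
      · rw [Cj]
        refine le_trans ?_ (a6 i' hi')
        exact sum_le_sum fun a _ => sum_le_sum_of_subset_of_nonneg (Cs i' hi') fun x _ _ =>
          cd_nonneg G _ _
      · exact absurd rfl hne
  · -- inj
    intro i hi i' hi' heq
    rcases hlt i hi with hi | rfl
    · rcases hlt i' hi' with hi' | rfl
      · rw [φi i hi, φi i' hi'] at heq
        exact H.inj i hi i' hi' heq
      · rw [φi i hi, φj] at heq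
        exact absurd heq.symm (hy i hi).1
    · rcases hlt i' hi' with hi' | rfl
      · rw [φi i' hi', φj] at heq
        exact absurd heq (hy i' hi').1
      · rfl
  · -- adj
    intro i hi i' hi' hii
    rcases hlt i' hi' with hi' | rfl
    · have hi2 : i < j := by omega
      rw [φi i hi2, φi i' hi']
      exact H.adj i hi2 i' hi' hii
    · rw [φi i hii, φj, ← hr]
      constructor
      · intro hA
        by_contra hne
        exact a1 i hii (Ne.symm hne) hA
      · intro h5
        rw [← h5]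
        exact hadj

end Pool.Agent.U797.LV
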