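import Mathlib

set_option autoImplicit false

/-!
# Arcs and their levels
-/

namespace Pool.Agent.U797.LV

open Finset
open scoped Classical

variable {V : Type} [Fintype V]

/-- the neighbours of `v` -/
noncomputable def nb (G : SimpleGraph V) (v : V) : Finset V := univ.filter (fun y => G.Adj v y)

theorem mem_nb {G : SimpleGraph V} {v y : V} : y ∈ nb G v ↔ G.Adj v y := by
  unfold nb
  simp

/-- the common neighbours of `v` and `a` in the class `j` of the colouring `ψ a` of the
neighbourhood of `a` -/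
noncomputable def cls (G : SimpleGraph V) (ψ : V → V → ℕ) (v a : V) (j : ℕ) : Finset V :=
  (nb G v ∩ nb G a).filter (fun y => ψ a y = j)

/-- the vertices `a` with which the walk `v, y` can be continued -/
noncomputable def cand (G : SimpleGraph V) (ψ : V → V → ℕ) (κ : ℕ) (L : V → V → Prop) (v y : V) :
    Finset V :=
  (nb G y).filter (fun a => ¬ G.Adj v a ∧ a ≠ v ∧ (cls G ψ v a (ψ a y)).card < κ ∧ L y a)

theorem mem_cand {G : SimpleGraph V} {ψ : V → V → ℕ} {κ : ℕ} {L : V → V → Prop} {v y a : V} :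
    a ∈ cand G ψ κ L v y ↔
      G.Adj y a ∧ ¬ G.Adj v a ∧ a ≠ v ∧ (cls G ψ v a (ψ a y)).card < κ ∧ L y a := by
  unfold cand
  rw [mem_filter, mem_nb]

/-- the arc `v, y` has level at least `i` -/
def Lev (G : SimpleGraph V) (ψ : V → V → ℕ) (κ M : ℕ) : ℕ → V → V → Prop
  | 0 => fun v y => G.Adj v y
  | i + 1 => fun v y => G.Adj v y ∧ M ≤ (cand G ψ κ (Lev G ψ κ M i) v y).card

theorem Lev.adj {G : SimpleGraph V} {ψ : V → V → ℕ} {κ M i : ℕ} {v y : V}
    (h : Lev G ψ κ M i v y) : G.Adj v y := by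
  cases i with
  | zero => exact h
  | succ i => exact h.1

/-- the number of common neighbours -/
noncomputable def cd (G : SimpleGraph V) (a z : V) : ℝ := ((nb G a ∩ nb G z).card : ℝ)

theorem cd_comm (G : SimpleGraph V) (a z : V) : cd G a z = cd G z a := by
  unfold cd
  rw [inter_comm]

theorem cd_nonneg (G : SimpleGraph V) (a z : V) : 0 ≤ cd G a z := Nat.cast_nonneg _

/-- double counting -/
theorem sum_inter_nb (G : SimpleGraph V) (S T : Finset V) :
    ∑ a ∈ S, ((T ∩ nb G a).card : ℝ) = ∑ w ∈ T, ((S ∩ nb G w).card : ℝ) := by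
  have h : ∀ S T : Finset V, ∀ a, ((T ∩ nb G a).card : ℝ) = ∑ w ∈ T, if G.Adj a w then 1 else 0 := by
    intro S T a
    rw [sum_boole]
    congr 2
    ext w
    rw [mem_inter, mem_nb, mem_filter]
  rw [sum_congr rfl fun a _ => h S T a, sum_congr rfl fun a _ => h T S a, sum_comm]
  refine sum_congr rfl fun w _ => sum_congr rfl fun a _ => ?_
  simp only [G.adj_comm]

theorem sum_cd {G : SimpleGraph V} {D : ℝ} (hD : ∀ v, ((nb G v).card : ℝ) ≤ D) (z : V) :
    ∑ a, cd G a z ≤ D ^ 2 := by
  have h1 : ∑ a, cd G a z = ∑ w ∈ nb G z, (((univ : Finset V) ∩ nb G w).card : ℝ) := by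
    rw [← sum_inter_nb]
    refine sum_congr rfl fun a _ => ?_
    unfold cd
    rw [inter_comm]
  rw [h1]
  have h0 : 0 ≤ D := le_trans (Nat.cast_nonneg _) (hD z)
  calc ∑ w ∈ nb G z, (((univ : Finset V) ∩ nb G w).card : ℝ) ≤ ∑ w ∈ nb G z, D := by
        refine sum_le_sum fun w _ => ?_
        rw [univ_inter]
        exact hD w
    _ = ((nb G z).card : ℝ) * D := by rw [sum_const, nsmul_eq_mul]
    _ ≤ D * D := mul_le_mul_of_nonneg_right (hD z) h0
    _ = D ^ 2 := by ring

/-- a vertex `a` continues few walks of length one -/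
theorem mult {G : SimpleGraph V} {ψ : V → V → ℕ} {κ Q : ℕ} {L : V → V → Prop}
    (hψ : ∀ a y, ψ a y < Q) {v : V} {S : Finset V} (hS : S ⊆ nb G v) (a : V) :
    (S.filter (fun y => a ∈ cand G ψ κ L v y)).card ≤ Q * κ := by
  have h1 : S.filter (fun y => a ∈ cand G ψ κ L v y) ⊆
      ((range Q).filter (fun j => (cls G ψ v a j).card < κ)).biUnion (fun j => cls G ψ v a j) := by
    intro y hy
    rw [mem_filter, mem_cand] at hy
    obtain ⟨h1, h2, h3, h4, h5, h6⟩ := hy
    rw [mem_biUnion]
    refine ⟨ψ a y, ?_, ?_⟩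
    · rw [mem_filter, mem_range]
      exact ⟨hψ a y, h5⟩
    · unfold cls
      rw [mem_filter, mem_inter, mem_nb (v := a)]
      exact ⟨⟨hS h1, h2.symm⟩, rfl⟩
  refine (card_le_card h1).trans (card_biUnion_le.trans ?_)
  calc ∑ j ∈ (range Q).filter (fun j => (cls G ψ v a j).card < κ), (cls G ψ v a j).card
      ≤ ∑ j ∈ (range Q).filter (fun j => (cls G ψ v a j).card < κ), κ := by
        refine sum_le_sum fun j hj => ?_
        rw [mem_filter] at hj
        exact hj.2.le
    _ = ((range Q).filter (fun j => (cls G ψ v a j).card < κ)).card * κ := by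
        rw [sum_const, smul_eq_mul]
    _ ≤ Q * κ := by
        apply Nat.mul_le_mul_right
        exact (card_filter_le _ _).trans (by rw [card_range])

/-- sums over the continuations -/
theorem sum_cand {G : SimpleGraph V} {ψ : V → V → ℕ} {κ Q : ℕ} {L : V → V → Prop}
    (hψ : ∀ a y, ψ a y < Q) {v : V} {S : Finset V} (hS : S ⊆ nb G v) (g : V → ℝ)
    (hg : ∀ a, 0 ≤ g a) :
    ∑ y ∈ S, ∑ a ∈ cand G ψ κ L v y, g a ≤ (Q * κ : ℕ) * ∑ a, g a := by
  have h1 : ∑ y ∈ S, ∑ a ∈ cand G ψ κ L v y, g a =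
      ∑ a, ((S.filter (fun y => a ∈ cand G ψ κ L v y)).card : ℝ) * g a := by
    have h2 : ∀ y, ∑ a ∈ cand G ψ κ L v y, g a =
        ∑ a, if a ∈ cand G ψ κ L v y then g a else 0 := by
      intro y
      rw [← sum_filter]
      congr 1
      ext a
      simp
    rw [sum_congr rfl fun y _ => h2 y, sum_comm]
    refine sum_congr rfl fun a _ => ?_
    rw [← sum_filter, sum_const, nsmul_eq_mul]
  rw [h1, mul_sum]
  refine sum_le_sum fun a _ => ?_
  apply mul_le_mul_of_nonneg_right _ (hg a)
  exact_mod_cast mult hψ hS a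

/-- Markov's inequality -/
theorem few {S : Finset V} {f : V → ℝ} (hf : ∀ y, 0 ≤ f y) {W η : ℝ} (hη : 0 < η)
    (h : ∑ y ∈ S, f y ≤ W) : ((S.filter (fun y => η < f y)).card : ℝ) ≤ W / η := by
  rw [le_div_iff₀ hη]
  calc ((S.filter (fun y => η < f y)).card : ℝ) * η = ∑ y ∈ S.filter (fun y => η < f y), η := by
        rw [sum_const, nsmul_eq_mul]
    _ ≤ ∑ y ∈ S.filter (fun y => η < f y), f y := by
        refine sum_le_sum fun y hy => ?_
        rw [mem_filter] at hy
        exact hy.2.le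
    _ ≤ ∑ y ∈ S, f y := sum_le_sum_of_subset_of_nonneg (filter_subset _ _) fun y _ _ => hf y
    _ ≤ W := h

/-- in a graph without a `k`-clique every nonempty set has a vertex with many non-neighbours -/
theorem non_nb {G : SimpleGraph V} (k : ℕ) : ∀ S : Finset V, S.Nonempty →
    (∀ T : Finset V, T ⊆ S → ¬ G.IsNClique k T) →
    ∃ y ∈ S, S.card ≤ k * (S \ nb G y).card := by
  induction k with
  | zero =>
    intro S _ h
    exact absurd (by simp [SimpleGraph.isNClique_iff]) (h ∅ (empty_subset _))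
  | succ k ih =>
    intro S hS h
    obtain ⟨x, hx⟩ := hS
    by_cases h1 : S.card ≤ (k + 1) * (S \ nb G x).card
    · exact ⟨x, hx, h1⟩
    push Not at h1
    have h2 : (S \ nb G x).card + (S ∩ nb G x).card = S.card := by
      rw [add_comm]
      exact card_inter_add_card_sdiff S (nb G x)
    have hx2 : 0 < (S \ nb G x).card := by
      apply card_pos.2
      exact ⟨x, by rw [mem_sdiff, mem_nb]; exact ⟨hx, G.loopless.irrefl x⟩⟩
    have h3 : (S ∩ nb G x).Nonempty := by
      rw [← card_pos]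
      nlinarith
    obtain ⟨y, hy1, hy2⟩ := ih (S ∩ nb G x) h3 (by
      intro T hT hcl
      apply h (insert x T)
      · intro z hz
        rw [mem_insert] at hz
        rcases hz with rfl | hz
        · exact hx
        · exact (mem_inter.1 (hT hz)).1
      · exact hcl.insert fun b hb => mem_nb.1 (mem_inter.1 (hT hb)).2)
    refine ⟨y, (mem_inter.1 hy1).1, ?_⟩
    have h4 : ((S ∩ nb G x) \ nb G y).card ≤ (S \ nb G y).card :=
      card_le_card (sdiff_subset_sdiff inter_subset_left (subset_refl _))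
    have h5 : k * ((S ∩ nb G x) \ nb G y).card ≤ k * (S \ nb G y).card :=
      Nat.mul_le_mul_left k h4
    rcases Nat.eq_zero_or_pos k with rfl | hk
    · simp at hy2
      exact absurd hy2 (by rw [← Finset.not_nonempty_iff_eq_empty] at *; exact fun h => h h3)
    · nlinarith

end Pool.Agent.U797.LV
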