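import Pool.Agent.Helper635.LLL
import Pool.Agent.U797.LV.Lev

set_option autoImplicit false

/-!
# Random colours of cells
-/

namespace Pool.Agent.U797.LV

open Finset Pool.Agent.Helper635.LLL
open scoped Classical

section prob

variable {T C : Type} [Fintype T] [Fintype C]

/-- the number of functions with values in `A` on `J` -/
theorem cnt_box (J : Finset T) (A : Finset C) :
    cnt (fun ω : T → C => ∀ t ∈ J, ω t ∈ A) * Fintype.card C ^ J.card =
      A.card ^ J.card * Fintype.card (T → C) := by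
  have h1 : ev (fun ω : T → C => ∀ t ∈ J, ω t ∈ A) =
      Fintype.piFinset (fun t => if t ∈ J then A else univ) := by
    ext ω
    rw [mem_ev, Fintype.mem_piFinset]
    refine forall_congr' fun t => ?_
    by_cases ht : t ∈ J
    · simp [ht]
    · simp [ht]
  unfold cnt
  rw [h1, Fintype.card_piFinset]
  have h2 : ∏ t : T, (if t ∈ J then A else (univ : Finset C)).card =
      A.card ^ J.card * Fintype.card C ^ (Jᶜ).card := by
    have h3 : ∀ t : T, (if t ∈ J then A else (univ : Finset C)).card =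
        if t ∈ J then A.card else Fintype.card C := by
      intro t
      split_ifs
      · rfl
      · exact card_univ
    rw [prod_congr rfl fun t _ => h3 t, prod_ite, prod_const, prod_const, filter_mem_eq_inter,
      univ_inter]
    congr 2
    congr 1
    ext t
    simp
  rw [h2, Fintype.card_fun, mul_assoc, ← pow_add, card_compl]
  congr 2
  have := card_le_univ J
  omega

theorem cnt_or (P R : (T → C) → Prop) : cnt (fun ω => P ω ∨ R ω) ≤ cnt P + cnt R := by
  refine le_trans (card_le_card ?_) (card_union_le (ev P) (ev R))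
  intro ω hω
  rw [mem_ev] at hω
  rw [mem_union, mem_ev, mem_ev]
  exact hω

theorem cnt_exists {β : Type} (J : Finset β) (P : β → (T → C) → Prop) :
    cnt (fun ω => ∃ b ∈ J, P b ω) ≤ ∑ b ∈ J, cnt (P b) := by
  refine le_trans (card_le_card ?_) (card_biUnion_le (s := J) (t := fun b => ev (P b)))
  intro ω hω
  rw [mem_ev] at hω
  obtain ⟨b, hb1, hb2⟩ := hω
  rw [mem_biUnion]
  exact ⟨b, hb1, mem_ev.2 hb2⟩

end prob

variable {T I : Type} [Fintype I]

/-- `(t, ω)` is good for the vertex with the cells `S` and the cells `R` of the neighbours -/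
def Gd {K N : ℕ} (m : ℕ) (e : T × Fin K → I) (S R : Finset T) (t : Fin K) (ω : I → Fin N) : Prop :=
  (∃ c ∈ S, (ω (e (c, t)) : ℕ) < m) ∧
    ∀ c ∈ S, (ω (e (c, t)) : ℕ) < m → ∀ c' ∈ R, ω (e (c', t)) ≠ ω (e (c, t))

theorem half {K m s r : ℕ} {e : T × Fin K → I} (he : Function.Injective e) (hm : 1 ≤ m) (hs : 1 ≤ s) (hr : 8 * r ≤ m * s) {S R : Finset T}
    (hS : S.card = s) (hR : R.card ≤ r) (hSR : Disjoint S R) (t : Fin K) :
    (cnt (fun ω : I → Fin (m * s) => ¬ Gd m e S R t ω) : ℝ) ≤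
      1 / 2 * Fintype.card (I → Fin (m * s)) := by
  obtain ⟨N, hN⟩ : ∃ N : ℕ, N = Fintype.card (I → Fin (m * s)) := ⟨_, rfl⟩
  have hms : 0 < m * s := Nat.mul_pos hm hs
  have hm0 : (0 : ℝ) < m := by exact_mod_cast hm
  have hs0 : (0 : ℝ) < s := by exact_mod_cast hs
  rw [← hN]
  have h1 : cnt (fun ω : I → Fin (m * s) => ¬ Gd m e S R t ω) ≤
      cnt (fun ω : I → Fin (m * s) => ∀ c ∈ S.map ⟨fun c => e (c, t), fun a b h =>
        (Prod.ext_iff.1 (he h)).1⟩, ω c ∈ (univ : Finset (Fin (m * s))).filter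
          (fun x : Fin (m * s) => ¬ x.val < m)) +
      cnt (fun ω : I → Fin (m * s) => ∃ q ∈ (S ×ˢ R) ×ˢ
        ((univ : Finset (Fin (m * s))).filter (fun x : Fin (m * s) => x.val < m)),
        ∀ c ∈ ({e (q.1.1, t), e (q.1.2, t)} : Finset I), ω c ∈ ({q.2} : Finset _)) := by
    refine le_trans (cnt_mono ?_) (cnt_or _ _)
    intro ω hω
    unfold Gd at hω
    by_cases h2 : ∃ c ∈ S, (ω (e (c, t)) : ℕ) < m
    · right
      have h3 : ¬ ∀ c ∈ S, (ω (e (c, t)) : ℕ) < m → ∀ c' ∈ R, ω (e (c', t)) ≠ ω (e (c, t)) :=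
        fun h => hω ⟨h2, h⟩
      push Not at h3
      obtain ⟨c, hc1, hc2, c', hc3, hc4⟩ := h3
      refine ⟨((c, c'), ω (e (c, t))), ?_, ?_⟩
      · rw [mem_product, mem_product, mem_filter]
        exact ⟨⟨hc1, hc3⟩, mem_univ _, hc2⟩
      · intro z hz
        rw [mem_insert, mem_singleton] at hz
        rw [mem_singleton]
        rcases hz with rfl | rfl
        · rfl
        · exact hc4
    · left
      push Not at h2
      intro z hz
      rw [mem_map] at hz
      obtain ⟨c, hc, rfl⟩ := hz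
      rw [mem_filter]
      refine ⟨mem_univ _, ?_⟩
      rw [not_lt]
      exact h2 c hc
  -- no active cell
  have hcf : ((univ : Finset (Fin (m * s))).filter (fun x : Fin (m * s) => x.val < m)).card = m := by
    have h2 : m ≤ m * s := Nat.le_mul_of_pos_right m hs
    have h3 : ((univ : Finset (Fin (m * s))).filter (fun x : Fin (m * s) => x.val < m)) =
        (univ : Finset (Fin m)).map (Fin.castLEEmb h2) := by
      ext x
      rw [mem_filter, mem_map]
      constructor
      · rintro ⟨_, hx⟩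
        exact ⟨⟨x, hx⟩, mem_univ _, by ext; rfl⟩
      · rintro ⟨y, _, rfl⟩
        exact ⟨mem_univ _, y.2⟩
    rw [h3, card_map, card_univ, Fintype.card_fin]
  have hcn : ((univ : Finset (Fin (m * s))).filter (fun x : Fin (m * s) => ¬ x.val < m)).card = m * s - m := by
    have h2 := card_filter_add_card_filter_not (s := (univ : Finset (Fin (m * s))))
      (p := fun x : Fin (m * s) => x.val < m)
    rw [hcf, card_univ, Fintype.card_fin] at h2
    omega
  obtain ⟨a, ha⟩ : ∃ a : ℕ, a = cnt (fun ω : I → Fin (m * s) => ∀ c ∈ S.map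
      ⟨fun c => e (c, t), fun a b h => (Prod.ext_iff.1 (he h)).1⟩, ω c ∈
        (univ : Finset (Fin (m * s))).filter (fun x : Fin (m * s) => ¬ x.val < m)) := ⟨_, rfl⟩
  obtain ⟨b, hb⟩ : ∃ b : ℕ, b = cnt (fun ω : I → Fin (m * s) => ∃ q ∈ (S ×ˢ R) ×ˢ
        ((univ : Finset (Fin (m * s))).filter (fun x : Fin (m * s) => x.val < m)),
        ∀ c ∈ ({e (q.1.1, t), e (q.1.2, t)} : Finset I), ω c ∈ ({q.2} : Finset _)) :=
    ⟨_, rfl⟩
  rw [← ha, ← hb] at h1
  have h2 : (a : ℝ) ≤ 3 / 8 * N := by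
    have h3 := cnt_box (C := Fin (m * s)) (S.map ⟨fun c => e (c, t), fun a b h =>
      (Prod.ext_iff.1 (he h)).1⟩) ((univ : Finset (Fin (m * s))).filter (fun x : Fin (m * s) => ¬ x.val < m))
    rw [← ha, card_map, hS, hcn, Fintype.card_fin] at h3
    replace h3 : a * (m * s) ^ s = (m * s - m) ^ s * N := by
      rw [h3, hN]
    have h4 : (a : ℝ) * ((m : ℝ) * s) ^ s = ((m : ℝ) * s - m) ^ s * N := by
      have h5 : m ≤ m * s := Nat.le_mul_of_pos_right m hs
      have h6 : ((m * s - m : ℕ) : ℝ) = (m : ℝ) * s - m := by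
        rw [Nat.cast_sub h5, Nat.cast_mul]
      rw [← h6]
      exact_mod_cast h3
    have h7 : ((m : ℝ) * s - m) ^ s ≤ 3 / 8 * ((m : ℝ) * s) ^ s := by
      have e1 : (m : ℝ) * s - m = (m * s) * (1 - 1 / s) := by
        field_simp
      rw [e1, mul_pow, mul_comm (3 / 8 : ℝ)]
      apply mul_le_mul_of_nonneg_left _ (by positivity)
      have e2 : 1 - 1 / (s : ℝ) ≤ Real.exp (-(1 / s)) := by
        have := Real.add_one_le_exp (-(1 / (s : ℝ)))
        linarith
      have e3 : 0 ≤ 1 - 1 / (s : ℝ) := by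
        rw [sub_nonneg, div_le_one hs0]
        exact_mod_cast hs
      calc (1 - 1 / (s : ℝ)) ^ s ≤ (Real.exp (-(1 / s))) ^ s := pow_le_pow_left₀ e3 e2 s
        _ = Real.exp (-1) := by
          rw [← Real.exp_nat_mul]
          congr 1
          field_simp
        _ ≤ 3 / 8 := by
          rw [Real.exp_neg]
          have := Real.exp_one_gt_d9
          rw [inv_le_comm₀ (by positivity) (by norm_num)]
          norm_num
          linarith
    have h8 : (a : ℝ) * ((m : ℝ) * s) ^ s ≤ 3 / 8 * N * ((m : ℝ) * s) ^ s := by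
      rw [h4]
      have := mul_le_mul_of_nonneg_right h7 (Nat.cast_nonneg (α := ℝ) N)
      linarith
    exact le_of_mul_le_mul_right h8 (by positivity)
  have h3 : (b : ℝ) ≤ 1 / 8 * N := by
    have h4 : b ≤ ∑ q ∈ (S ×ˢ R) ×ˢ ((univ : Finset (Fin (m * s))).filter (fun x : Fin (m * s) => x.val < m)),
        cnt (fun ω : I → Fin (m * s) => ∀ c ∈ ({e (q.1.1, t), e (q.1.2, t)} :
          Finset I), ω c ∈ ({q.2} : Finset _)) := by
      rw [hb]
      exact cnt_exists _ _
    have h5 : ∀ q ∈ (S ×ˢ R) ×ˢ ((univ : Finset (Fin (m * s))).filter (fun x : Fin (m * s) => x.val < m)),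
        cnt (fun ω : I → Fin (m * s) => ∀ c ∈ ({e (q.1.1, t), e (q.1.2, t)} :
          Finset I), ω c ∈ ({q.2} : Finset _)) * (m * s) ^ 2 = N := by
      intro q hq
      rw [mem_product, mem_product] at hq
      have h6 := cnt_box (C := Fin (m * s)) ({e (q.1.1, t), e (q.1.2, t)} : Finset I)
        ({q.2} : Finset _)
      have h7 : ({e (q.1.1, t), e (q.1.2, t)} : Finset I).card = 2 := by
        apply card_pair
        intro h8
        have h9 := (Prod.ext_iff.1 (he h8)).1
        dsimp only at h9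
        rw [h9] at hq
        exact disjoint_left.1 hSR hq.1.1 hq.1.2
      rw [h7, card_singleton, one_pow, one_mul, Fintype.card_fin] at h6
      rw [h6, hN]
    have h6 : b * (m * s) ^ 2 ≤ s * r * m * N := by
      calc b * (m * s) ^ 2 ≤ (∑ q ∈ (S ×ˢ R) ×ˢ ((univ : Finset (Fin (m * s))).filter
            (fun x : Fin (m * s) => x.val < m)),
            cnt (fun ω : I → Fin (m * s) => ∀ c ∈ ({e (q.1.1, t), e (q.1.2, t)} :
              Finset I), ω c ∈ ({q.2} : Finset _))) * (m * s) ^ 2 :=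
            Nat.mul_le_mul_right _ h4
        _ = ∑ q ∈ (S ×ˢ R) ×ˢ ((univ : Finset (Fin (m * s))).filter (fun x : Fin (m * s) => x.val < m)), N := by
            rw [sum_mul]
            exact sum_congr rfl h5
        _ = S.card * R.card * m * N := by
            rw [sum_const, smul_eq_mul, card_product, card_product, hcf]
        _ ≤ s * r * m * N := by
            rw [hS]
            apply Nat.mul_le_mul_right
            apply Nat.mul_le_mul_right
            exact Nat.mul_le_mul_left _ hR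
    have h7 : (b : ℝ) * ((m : ℝ) * s) ^ 2 ≤ s * r * m * N := by exact_mod_cast h6
    have h8 : (8 : ℝ) * r ≤ m * s := by exact_mod_cast hr
    have h9 : (s : ℝ) * r * m * N ≤ 1 / 8 * N * ((m : ℝ) * s) ^ 2 := by
      have e1 : (s : ℝ) * r * m * N = (8 * r) * (s * m * N / 8) := by ring
      have e2 : 1 / 8 * N * ((m : ℝ) * s) ^ 2 = (m * s) * (s * m * N / 8) := by ring
      rw [e1, e2]
      exact mul_le_mul_of_nonneg_right h8 (by positivity)
    exact le_of_mul_le_mul_right (h7.trans h9) (by positivity)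
  have h4 : (cnt (fun ω : I → Fin (m * s) => ¬ Gd m e S R t ω) : ℝ) ≤ a + b := by
    exact_mod_cast h1
  linarith

theorem gd_dep {K N m : ℕ} {e : T × Fin K → I} {S R : Finset T} (t : Fin K) (ω ω' : I → Fin N)
    (h : ∀ c ∈ S ∪ R, ω (e (c, t)) = ω' (e (c, t))) : Gd m e S R t ω → Gd m e S R t ω' := by
  rintro ⟨⟨c, hc1, hc2⟩, h2⟩
  refine ⟨⟨c, hc1, ?_⟩, ?_⟩
  · rw [← h c (mem_union_left _ hc1)]
    exact hc2
  · intro c hc hcm c' hc' heq
    rw [← h c (mem_union_left _ hc)] at hcm heq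
    rw [← h c' (mem_union_right _ hc')] at heq
    exact h2 c hc hcm c' hc' heq

theorem gd_dep' {K N m : ℕ} {e : T × Fin K → I} {S R : Finset T} (t : Fin K) (ω ω' : I → Fin N)
    (h : ∀ c ∈ S ∪ R, ω (e (c, t)) = ω' (e (c, t))) : Gd m e S R t ω ↔ Gd m e S R t ω' :=
  ⟨gd_dep t ω ω' h, gd_dep t ω' ω fun c hc => (h c hc).symm⟩

/-- many independent attempts -/
theorem many {K m s r : ℕ} {e : T × Fin K → I} (he : Function.Injective e) (hm : 1 ≤ m) (hs : 1 ≤ s) (hr : 8 * r ≤ m * s) {S R : Finset T}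
    (hS : S.card = s) (hR : R.card ≤ r) (hSR : Disjoint S R) (J : Finset (Fin K)) :
    (cnt (fun ω : I → Fin (m * s) => ∀ t ∈ J, ¬ Gd m e S R t ω) : ℝ) ≤
      (1 / 2) ^ J.card * Fintype.card (I → Fin (m * s)) := by
  have hms : 0 < m * s := Nat.mul_pos hm hs
  have : Nonempty (Fin (m * s)) := ⟨⟨0, hms⟩⟩
  have hN : (0 : ℝ) < Fintype.card (I → Fin (m * s)) := by
    exact_mod_cast Fintype.card_pos
  induction J using Finset.induction_on with
  | empty =>
    rw [card_empty, pow_zero, one_mul]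
    unfold cnt
    exact_mod_cast card_le_univ _
  | insert t J ht ih =>
    have h1 := indep (T := I) (C := Fin (m * s)) (fun ω => ¬ Gd m e S R t ω)
      (fun ω => ∀ t ∈ J, ¬ Gd m e S R t ω) (((S ∪ R) ×ˢ {t}).image e) (by
        intro ω ω' h hg hg'
        apply hg
        refine gd_dep t ω' ω ?_ hg'
        intro c hc
        exact (h (e (c, t)) (mem_image_of_mem e (by
          simp only [mem_product, mem_singleton, and_true]
          exact hc))).symm) (by
        intro ω ω' h hg t' ht' hg'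
        apply hg t' ht'
        refine gd_dep t' ω' ω ?_ hg'
        intro c hc
        refine (h (e (c, t')) ?_).symm
        rw [mem_image]
        rintro ⟨z, hz, hze⟩
        have h2 := he hze
        rw [h2, mem_product, mem_singleton] at hz
        have h3 := hz.2
        dsimp only at h3
        rw [h3] at ht'
        exact ht ht')
    have h2 : cnt (fun ω : I → Fin (m * s) => ∀ t' ∈ insert t J, ¬ Gd m e S R t' ω) ≤
        cnt (fun ω : I → Fin (m * s) => ¬ Gd m e S R t ω ∧ ∀ t ∈ J, ¬ Gd m e S R t ω) := by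
      apply cnt_mono
      intro ω hω
      exact ⟨hω t (mem_insert_self _ _), fun t' ht' => hω t' (mem_insert_of_mem ht')⟩
    have h3 : (cnt (fun ω : I → Fin (m * s) => ¬ Gd m e S R t ω ∧
        ∀ t ∈ J, ¬ Gd m e S R t ω) : ℝ) * Fintype.card (I → Fin (m * s)) =
        cnt (fun ω : I → Fin (m * s) => ¬ Gd m e S R t ω) *
        cnt (fun ω : I → Fin (m * s) => ∀ t ∈ J, ¬ Gd m e S R t ω) := by
      exact_mod_cast h1
    have h4 := half he hm hs hr hS hR hSR t
    have h5 : (cnt (fun ω : I → Fin (m * s) => ∀ t' ∈ insert t J, ¬ Gd m e S R t' ω) : ℝ) ≤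
        cnt (fun ω : I → Fin (m * s) => ¬ Gd m e S R t ω ∧ ∀ t ∈ J, ¬ Gd m e S R t ω) := by
      exact_mod_cast h2
    rw [card_insert_of_notMem ht, pow_succ]
    refine h5.trans ?_
    refine le_of_mul_le_mul_right ?_ hN
    rw [h3]
    calc _ ≤ (1 / 2 * (Fintype.card (I → Fin (m * s)) : ℝ)) *
          ((1 / 2) ^ J.card * Fintype.card (I → Fin (m * s))) :=
          mul_le_mul h4 ih (Nat.cast_nonneg _) (by positivity)
      _ = _ := by ring

/-- **Colouring with random colours of cells.** -/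
theorem colour_cells' {V : Type} {K m s r d : ℕ} {e : T × Fin K → I} (he : Function.Injective e) (hm : 1 ≤ m) (hs : 1 ≤ s)
    (hr : 8 * r ≤ m * s) (X : Finset V) (S R : V → Finset T) (hS : ∀ v ∈ X, (S v).card = s)
    (hR : ∀ v ∈ X, (R v).card ≤ r) (hSR : ∀ v ∈ X, Disjoint (S v) (R v)) (hd1 : 1 ≤ d)
    (hd : ∀ v ∈ X, (X.filter (fun u => ¬ Disjoint (S v ∪ R v) (S u ∪ R u))).card ≤ d)
    (hK : 4 * d ≤ 2 ^ K) (A : V → V → Prop) (hA : ∀ v ∈ X, ∀ u ∈ X, A v u → S u ⊆ R v) :
    ∃ f : V → ℕ, (∀ v ∈ X, f v < K * m) ∧ ∀ v ∈ X, ∀ u ∈ X, A v u → f v ≠ f u := by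
  have hms : 0 < m * s := Nat.mul_pos hm hs
  have : Nonempty (Fin (m * s)) := ⟨⟨0, hms⟩⟩
  obtain ⟨ω, hω⟩ := lll (T := I) (C := Fin (m * s)) X
    (fun v ω => ∀ t ∈ (univ : Finset (Fin K)), ¬ Gd m e (S v) (R v) t ω)
    (fun v => ((S v ∪ R v) ×ˢ univ).image e) (by
      intro v _ ω ω' h hg t ht hg'
      apply hg t ht
      refine gd_dep t ω' ω ?_ hg'
      intro c hc
      exact (h (e (c, t)) (mem_image_of_mem e (by
        simp only [mem_product, mem_univ, and_true]
        exact hc))).symm)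
    ((1 / 2) ^ K) d (by positivity) (by
      intro v hv
      have := many he hm hs hr (hS v hv) (hR v hv) (hSR v hv) univ
      rw [card_univ, Fintype.card_fin] at this
      exact this) (by
      intro v hv
      refine le_trans (card_le_card ?_) (hd v hv)
      intro u hu
      rw [mem_filter] at hu ⊢
      refine ⟨hu.1, fun h => hu.2 ?_⟩
      rw [disjoint_left] at h ⊢
      intro z hz hz'
      rw [mem_image] at hz hz'
      obtain ⟨a, ha, rfl⟩ := hz
      obtain ⟨b, hb, hab⟩ := hz'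
      have h2 := he hab
      rw [h2] at hb
      rw [mem_product] at ha hb
      exact h ha.1 hb.1) (by
      have h1 : (4 : ℝ) * d ≤ 2 ^ K := by exact_mod_cast hK
      have h2 : (0 : ℝ) < 2 ^ K := by positivity
      rw [one_div, inv_pow]
      have h3 : 4 * ((2 : ℝ) ^ K)⁻¹ * d = (4 * d) * ((2 : ℝ) ^ K)⁻¹ := by ring
      rw [h3, ← div_eq_mul_inv, div_le_one h2]
      exact h1) hd1 Fintype.card_pos
  have h1 : ∀ v ∈ X, ∃ t : Fin K, Gd m e (S v) (R v) t ω := by
    intro v hv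
    have := hω v hv
    push Not at this
    obtain ⟨t, _, ht⟩ := this
    exact ⟨t, ht⟩
  have h2 : ∀ v : V, ∃ q : ℕ, v ∈ X → ∃ (t : Fin K) (c : T), Gd m e (S v) (R v) t ω ∧ c ∈ S v ∧
      (ω (e (c, t)) : ℕ) < m ∧ q = t * m + ω (e (c, t)) := by
    intro v
    by_cases hv : v ∈ X
    · obtain ⟨t, ht⟩ := h1 v hv
      obtain ⟨c, hc1, hc2⟩ := ht.1
      exact ⟨t * m + ω (e (c, t)), fun _ => ⟨t, c, ht, hc1, hc2, rfl⟩⟩
    · exact ⟨0, fun h => absurd h hv⟩
  choose f hf using h2
  refine ⟨f, ?_, ?_⟩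
  · intro v hv
    obtain ⟨t, c, _, _, h5, h6⟩ := hf v hv
    rw [h6]
    have h7 := t.2
    calc (t : ℕ) * m + ω (e (c, t)) < t * m + m := by omega
      _ = (t + 1) * m := by ring
      _ ≤ K * m := Nat.mul_le_mul_right _ h7
  · intro v hv u hu hvu heq
    obtain ⟨t, c, h3, h4, h5, h6⟩ := hf v hv
    obtain ⟨t', c', h3', h4', h5', h6'⟩ := hf u hu
    rw [h6, h6'] at heq
    have h7 : (t : ℕ) = t' := by
      have e1 : ((t : ℕ) * m + ω (e (c, t))) / m = t := by
        rw [mul_comm, Nat.mul_add_div (by omega), Nat.div_eq_of_lt h5, add_zero]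
      have e2 : ((t' : ℕ) * m + ω (e (c', t'))) / m = t' := by
        rw [mul_comm, Nat.mul_add_div (by omega), Nat.div_eq_of_lt h5', add_zero]
      rw [← e1, ← e2, heq]
    have h8 : t = t' := Fin.ext h7
    subst h8
    have h9 : (ω (e (c', t)) : ℕ) = ω (e (c, t)) := by omega
    exact h3.2 c h4 h5 c' (hA v hv u hu hvu h4') (Fin.ext h9)

theorem colour_cells [Fintype T] {V : Type} {m s r d : ℕ} (K : ℕ) (hm : 1 ≤ m) (hs : 1 ≤ s)
    (hr : 8 * r ≤ m * s) (X : Finset V) (S R : V → Finset T) (hS : ∀ v ∈ X, (S v).card = s)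
    (hR : ∀ v ∈ X, (R v).card ≤ r) (hSR : ∀ v ∈ X, Disjoint (S v) (R v)) (hd1 : 1 ≤ d)
    (hd : ∀ v ∈ X, ∃ U : Finset V, U.card ≤ d ∧ ∀ u ∈ X, ∀ c, (c ∈ S v ∨ c ∈ R v) →
      (c ∈ S u ∨ c ∈ R u) → u ∈ U)
    (hK : 4 * d ≤ 2 ^ K) (A : V → V → Prop) (hA : ∀ v ∈ X, ∀ u ∈ X, A v u → S u ⊆ R v) :
    ∃ f : V → ℕ, (∀ v ∈ X, f v < K * m) ∧ ∀ v ∈ X, ∀ u ∈ X, A v u → f v ≠ f u := by
  refine colour_cells' (I := T × Fin K) (e := id) Function.injective_id hm hs hr X S R hS hR hSR
    hd1 ?_ hK A hA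
  intro v hv
  obtain ⟨U, hU1, hU2⟩ := hd v hv
  refine (card_le_card ?_).trans hU1
  intro u hu
  rw [mem_filter, not_disjoint_iff] at hu
  obtain ⟨hu1, c, hc1, hc2⟩ := hu
  rw [mem_union] at hc1 hc2
  exact hU2 u hu1 c hc1 hc2

end Pool.Agent.U797.LV
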